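import Mathlib

set_option autoImplicit false

open Filter Topology Set

namespace Pool.Agent.Results.MP_c9b87f_lc.PiFourIdeals

/-!
# Ideal limit points for `Π⁰₄` ideals

We prove that for every Polish space `X` and every `Π⁰₄` ideal `I` on `ω`, the family `L_X(I)` of
sets of `I`-limit points is either the family of closed sets or the family of `F_σ` sets.

Outline.
* `fusion`, `lam_coverable`: for a `Π⁰₄` ideal every set of `I`-limit points is `F_σ`
  (in a slightly more general setting, where points `η` carry filters `F η` on `ω`).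
* `no_fin2`: the same statement on Cantor space shows that no `Π⁰₄` ideal contains a copy of
  `Fin ⊗ Fin` below a positive set.
* `exists_blocks`: Talagrand-type blocks below every positive set.
* `exists_partition`, `realize`: if some set of `I`-limit points is not closed, every `F_σ` set
  is realized.
-/

/-! ### Definitions for the statement -/

/-- The pointclasses `Σ⁰ₙ` (`n ≥ 1`): `Σ⁰₁` = open, `Σ⁰ₙ₊₁` = countable unions of complements of
`Σ⁰ₙ` sets. -/
def Sigma0 {X : Type*} [TopologicalSpace X] : ℕ → Set X → Prop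
  | 0, _ => False
  | 1, s => IsOpen s
  | n + 2, s => ∃ f : ℕ → Set X, (∀ k, Sigma0 (n + 1) (f k)ᶜ) ∧ s = ⋃ k, f k

/-- The pointclasses `Π⁰ₙ`: complements of `Σ⁰ₙ` sets. -/
def Pi0 {X : Type*} [TopologicalSpace X] (n : ℕ) (s : Set X) : Prop := Sigma0 n sᶜ

/-- An ideal on `ω`. -/
structure IsIdeal (I : Set (Set ℕ)) : Prop where
  subset : ∀ S T : Set ℕ, S ⊆ T → T ∈ I → S ∈ I
  union : ∀ S T : Set ℕ, S ∈ I → T ∈ I → S ∪ T ∈ I
  finite_mem : ∀ S : Set ℕ, S.Finite → S ∈ I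
  proper : Set.univ ∉ I

/-- A family of subsets of `ω` as a subset of Cantor space `2^ω = (ℕ → Bool)`. -/
def code (I : Set (Set ℕ)) : Set (ℕ → Bool) := {x | {n | x n = true} ∈ I}

/-- The set `Λ_x(I)` of `I`-limit points of the sequence `x`. -/
def limitPoints {X : Type*} [TopologicalSpace X] (I : Set (Set ℕ)) (x : ℕ → X) : Set X :=
  {η | ∃ S : Set ℕ, S ∉ I ∧ Tendsto x (atTop ⊓ 𝓟 S) (𝓝 η)}

/-- The family `L_X(I)`. -/
def limitFamily (X : Type*) [TopologicalSpace X] (I : Set (Set ℕ)) : Set (Set X) :=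
  {A | ∃ x : ℕ → X, A = limitPoints I x} ∪ {∅}


/-! ### Finite approximations -/

/-- The cylinder determined by `x` below `m` is contained in `O`. -/
def Oin (O : Set (ℕ → Bool)) (x : ℕ → Bool) (m : ℕ) : Prop :=
  ∀ y : ℕ → Bool, (∀ n < m, y n = x n) → y ∈ O

/-- `(x', m')` extends `(x, m)`, all new elements being in `V`. -/
def Ext (V : Set ℕ) (x : ℕ → Bool) (m : ℕ) (x' : ℕ → Bool) (m' : ℕ) : Prop :=
  m ≤ m' ∧ (∀ n < m, x' n = x n) ∧ ∀ n, m ≤ n → n < m' → x' n = true → n ∈ V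

theorem Ext.refl (V : Set ℕ) (x : ℕ → Bool) (m : ℕ) : Ext V x m x m :=
  ⟨le_rfl, fun _ _ => rfl, fun n h1 h2 => absurd h2 (by omega)⟩

theorem Ext.trans {V V' : Set ℕ} {x x' x'' : ℕ → Bool} {m m' m'' : ℕ}
    (h : Ext V x m x' m') (h' : Ext V' x' m' x'' m'') (hV : V' ⊆ V) : Ext V x m x'' m'' := by
  refine ⟨h.1.trans h'.1, fun n hn => ?_, fun n h1 h2 h3 => ?_⟩
  · rw [h'.2.1 n (lt_of_lt_of_le hn h.1), h.2.1 n hn]
  · by_cases hn : n < m'
    · rw [h'.2.1 n hn] at h3
      exact h.2.2 n h1 hn h3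
    · exact hV (h'.2.2 n (not_lt.1 hn) h2 h3)

theorem exists_Oin {O : Set (ℕ → Bool)} (hO : IsOpen O) {x : ℕ → Bool} (hx : x ∈ O) :
    ∃ m, Oin O x m := by
  rw [isOpen_pi_iff] at hO
  obtain ⟨I, u, h1, h2⟩ := hO x hx
  refine ⟨I.sup id + 1, fun y hy => h2 ?_⟩
  intro a ha
  have : a < I.sup id + 1 := Nat.lt_succ_of_le (Finset.le_sup (f := id) ha)
  rw [hy a this]
  exact (h1 a ha).2

theorem Oin.mono {O : Set (ℕ → Bool)} {x : ℕ → Bool} {m m' : ℕ} (h : Oin O x m) (hm : m ≤ m') :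
    Oin O x m' := fun y hy => h y (fun n hn => hy n (lt_of_lt_of_le hn hm))

theorem Oin.congr {O : Set (ℕ → Bool)} {x y : ℕ → Bool} {m : ℕ} (h : Oin O x m)
    (hxy : ∀ n < m, x n = y n) : Oin O y m :=
  fun z hz => h z (fun n hn => by rw [hz n hn, hxy n hn])

theorem Oin.mem {O : Set (ℕ → Bool)} {x : ℕ → Bool} {m : ℕ} (h : Oin O x m) : x ∈ O :=
  h x (fun _ _ => rfl)

/-- `x` below `m`, then `false`. -/
def cut (x : ℕ → Bool) (m : ℕ) : ℕ → Bool := fun n => if n < m then x n else false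

/-! ### Generic sequences -/

theorem generic {P : Type*} [Preorder P] {ι : Type*} [Countable ι] (D : ι → Set P) (p0 : P)
    (hD : ∀ i, ∀ p ≤ p0, ∃ q ≤ p, q ∈ D i) :
    ∃ p : ℕ → P, (∀ k, p k ≤ p0) ∧ Antitone p ∧ ∀ i, ∃ k, p k ∈ D i := by
  rcases isEmpty_or_nonempty ι with hι | hι
  · exact ⟨fun _ => p0, fun _ => le_rfl, fun _ _ _ => le_rfl, fun i => (hι.false i).elim⟩
  · obtain ⟨e, he⟩ := exists_surjective_nat ι
    choose! nx hnx using fun (i : ι) (p : P) (hp : p ≤ p0) => hD i p hp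
    let q : ℕ → P := fun k => Nat.rec p0 (fun k r => nx (e k) r) k
    have hq : ∀ k, q k ≤ p0 := by
      intro k
      induction k with
      | zero => exact le_rfl
      | succ k ih => exact (hnx (e k) (q k) ih).1.trans ih
    refine ⟨q, hq, antitone_nat_of_succ_le fun k => (hnx (e k) (q k) (hq k)).1, fun i => ?_⟩
    obtain ⟨k, rfl⟩ := he i
    exact ⟨k + 1, (hnx (e k) (q k) (hq k)).2⟩

/-- Data of a poset whose conditions carry a finite approximation. -/
structure IsStem {P : Type*} [Preorder P] (stem : P → ℕ → Bool) (len : P → ℕ) : Prop where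
  len_le : ∀ p q : P, q ≤ p → len p ≤ len q
  agree : ∀ p q : P, q ≤ p → ∀ n < len p, stem q n = stem p n

theorem exists_limit {P : Type*} [Preorder P] {stem : P → ℕ → Bool} {len : P → ℕ}
    (h : IsStem stem len) (p : ℕ → P) (hp : Antitone p) (hlen : ∀ M, ∃ k, M ≤ len (p k)) :
    ∃ x : ℕ → Bool, ∀ k, ∀ n < len (p k), x n = stem (p k) n := by
  choose f hf using hlen
  refine ⟨fun n => stem (p (f (n + 1))) n, fun k n hn => ?_⟩
  rcases le_total k (f (n + 1)) with hk | hk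
  · exact h.agree _ _ (hp hk) n hn
  · exact (h.agree _ _ (hp hk) n (lt_of_lt_of_le (Nat.lt_succ_self n) (hf (n + 1)))).symm

theorem limit_mem {P : Type*} [Preorder P] {stem : P → ℕ → Bool} {len : P → ℕ}
    (p : ℕ → P) (hp : Antitone p)
    {O : ℕ → Set (ℕ → Bool)} {x : ℕ → Bool} (hx : ∀ k, ∀ n < len (p k), x n = stem (p k) n)
    (k0 : ℕ) (h1 : ∀ l, ∀ q ≤ p k0, ∃ r ≤ q, Oin (O l) (stem r) (len r))
    (h2 : ∀ l, ∃ k, Oin (O l) (stem (p k)) (len (p k)) ∨
      ∀ q ≤ p k, ¬ Oin (O l) (stem q) (len q)) :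
    ∀ l, x ∈ O l := by
  intro l
  obtain ⟨k, hk | hk⟩ := h2 l
  · exact (hk.congr (fun n hn => (hx k n hn).symm)).mem
  · exfalso
    obtain ⟨r, hr, hr'⟩ := h1 l (p (max k0 k)) (hp (le_max_left _ _))
    exact hk r (hr.trans (hp (le_max_right _ _))) hr'

theorem limit_not_mem {P : Type*} [Preorder P] {stem : P → ℕ → Bool} {len : P → ℕ}
    (h : IsStem stem len) (p : ℕ → P) (hp : Antitone p) (hlen : ∀ M, ∃ k, M ≤ len (p k))
    {O : Set (ℕ → Bool)} (hO : IsOpen O) {x : ℕ → Bool}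
    (hx : ∀ k, ∀ n < len (p k), x n = stem (p k) n)
    (k0 : ℕ) (h1 : ∀ q ≤ p k0, ¬ Oin O (stem q) (len q)) : x ∉ O := by
  intro hxO
  obtain ⟨m, hm⟩ := exists_Oin hO hxO
  obtain ⟨k, hk⟩ := hlen m
  have h3 : m ≤ len (p (max k0 k)) := hk.trans (h.len_le _ _ (hp (le_max_right _ _)))
  refine h1 (p (max k0 k)) (hp (le_max_left _ _)) ?_
  exact (hm.mono h3).congr (fun n hn => hx _ n hn)

/-! ### Conditions for one filter -/

/-- Conditions for a filter `F` on `ℕ`. -/
structure Cond (F : Filter ℕ) where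
  x : ℕ → Bool
  m : ℕ
  V : Set ℕ
  hV : V ∈ F

instance (F : Filter ℕ) : Preorder (Cond F) where
  le q p := Ext p.V p.x p.m q.x q.m ∧ q.V ⊆ p.V
  le_refl p := ⟨Ext.refl _ _ _, subset_rfl⟩
  le_trans r q p h1 h2 := ⟨h2.1.trans h1.1 h2.2, h1.2.trans h2.2⟩

theorem Cond.le_def {F : Filter ℕ} {p q : Cond F} :
    q ≤ p ↔ Ext p.V p.x p.m q.x q.m ∧ q.V ⊆ p.V := Iff.rfl

theorem Cond.isStem (F : Filter ℕ) : IsStem (fun p : Cond F => p.x) (fun p => p.m) where
  len_le _ _ h := h.1.1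
  agree _ _ h := h.1.2.1

/-- `S` converges to the filter `F`. -/
def Conv (S : ℕ → Bool) (F : Filter ℕ) : Prop :=
  ∀ V ∈ F, ∃ m, ∀ n, m ≤ n → S n = true → n ∈ V

theorem cut_ext {V : Set ℕ} (x : ℕ → Bool) {m m' : ℕ} (h : m ≤ m') :
    Ext V x m (cut x m) m' := by
  refine ⟨h, fun n hn => by simp [cut, hn], fun n h1 _ h3 => ?_⟩
  simp [cut, not_lt.2 h1] at h3

/-- Baire category: if every set converging to `F` is in `⋃ j, ⋂ l, O j l`, then below any
condition there are a condition and `j` such that all `O j l` are dense below it. -/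
theorem baire_step (F : Filter ℕ) [F.IsCountablyGenerated] (O : ℕ → ℕ → Set (ℕ → Bool))
    (hO : ∀ j l, IsOpen (O j l))
    (hF : ∀ S, Conv S F → ∃ j, ∀ l, S ∈ O j l) (p0 : Cond F) :
    ∃ j, ∃ p1 ≤ p0, ∀ l, ∀ q ≤ p1, ∃ r ≤ q, Oin (O j l) r.x r.m := by
  by_contra hcon
  push Not at hcon
  obtain ⟨B, hB⟩ := F.exists_antitone_basis
  let D : ℕ ⊕ ℕ → Set (Cond F) := fun i => match i with
    | Sum.inl j => {q | ∃ l, ∀ r ≤ q, ¬ Oin (O j l) r.x r.m}
    | Sum.inr k => {q | k ≤ q.m ∧ q.V ⊆ B k}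
  have hD : ∀ i, ∀ p ≤ p0, ∃ q ≤ p, q ∈ D i := by
    rintro (j | k) p hp
    · obtain ⟨l, q, hq, hq'⟩ := hcon j p hp
      exact ⟨q, hq, l, hq'⟩
    · refine ⟨⟨cut p.x p.m, max p.m k, p.V ∩ B k, inter_mem p.hV (hB.mem k)⟩,
        ⟨cut_ext _ (le_max_left _ _), inter_subset_left⟩, le_max_right _ _, inter_subset_right⟩
  obtain ⟨p, _, hp, hpD⟩ := generic D p0 hD
  have hlen : ∀ M, ∃ k, M ≤ (p k).m := fun M => by
    obtain ⟨k, hk⟩ := hpD (Sum.inr M)
    exact ⟨k, hk.1⟩
  obtain ⟨x, hx⟩ := exists_limit (Cond.isStem F) p hp hlen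
  have hconv : Conv x F := by
    intro V hV
    obtain ⟨k, hk⟩ := hB.mem_iff.1 hV
    obtain ⟨k', hk'⟩ := hpD (Sum.inr k)
    refine ⟨(p k').m, fun n hn hxn => hk (hk'.2 ?_)⟩
    obtain ⟨k'', hk''⟩ := hlen (n + 1)
    have h3 : n < (p (max k' k'')).m :=
      lt_of_lt_of_le hk'' ((Cond.isStem F).len_le _ _ (hp (le_max_right _ _)))
    have h4 := hx _ n h3
    rw [hxn] at h4
    exact (hp (le_max_left k' k'')).1.2.2 n hn h3 h4.symm
  obtain ⟨j, hj⟩ := hF x hconv
  obtain ⟨k, l, hk⟩ := hpD (Sum.inl j)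
  exact limit_not_mem (Cond.isStem F) p hp hlen (hO j l) hx k hk (hj l)


/-! ### Conditions for a pair of sets covering a given set -/

/-- Conditions for two sets which together cover `S0`. -/
structure Cond2 (F : Filter ℕ) (S0 : ℕ → Bool) where
  x : Bool → ℕ → Bool
  m : ℕ
  V : Set ℕ
  hV : V ∈ F
  hS : ∀ n, m ≤ n → S0 n = true → n ∈ V

instance (F : Filter ℕ) (S0 : ℕ → Bool) : Preorder (Cond2 F S0) where
  le q p := (∀ b, Ext p.V (p.x b) p.m (q.x b) q.m) ∧ q.V ⊆ p.V ∧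
    ∀ n, p.m ≤ n → n < q.m → S0 n = true → ∃ b, q.x b n = true
  le_refl p := ⟨fun b => Ext.refl _ _ _, subset_rfl, fun n h1 h2 => absurd h2 (by omega)⟩
  le_trans r q p h1 h2 := by
    refine ⟨fun b => (h2.1 b).trans (h1.1 b) h2.2.1, h1.2.1.trans h2.2.1, fun n h3 h4 h5 => ?_⟩
    by_cases hn : n < q.m
    · obtain ⟨b, hb⟩ := h2.2.2 n h3 hn h5
      exact ⟨b, by rw [(h1.1 b).2.1 n hn]; exact hb⟩
    · exact h1.2.2 n (not_lt.1 hn) h4 h5

theorem Cond2.isStem (F : Filter ℕ) (S0 : ℕ → Bool) (b : Bool) :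
    IsStem (fun p : Cond2 F S0 => p.x b) (fun p => p.m) where
  len_le _ _ h := (h.1 b).1
  agree _ _ h := (h.1 b).2.1

/-- `x` below `m`, then `S`. -/
def glue (x : ℕ → Bool) (m : ℕ) (S : ℕ → Bool) : ℕ → Bool := fun n => if n < m then x n else S n

/-- If `S0` is positive and converges to `F`, then some condition forces generic sets outside
some `⋃ j, ⋂ l, O i j l`. -/
theorem positive_step (F : Filter ℕ) (O : ℕ → ℕ → ℕ → Set (ℕ → Bool))
    (S0 : ℕ → Bool) (hS0 : Conv S0 F)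
    (hpos : ∀ y z : ℕ → Bool, (∀ i, ∃ j, ∀ l, y ∈ O i j l) → (∀ i, ∃ j, ∀ l, z ∈ O i j l) →
      ¬ ∃ m, ∀ n, m ≤ n → S0 n = true → (y n = true ∨ z n = true)) :
    ∃ i, ∃ p : Cond F, ∀ j, ∀ p1 ≤ p, ∃ l, ∃ q ≤ p1, ∀ r ≤ q, ¬ Oin (O i j l) r.x r.m := by
  by_contra hcon
  push Not at hcon
  let D : (Bool × ℕ) ⊕ ((Bool × ℕ × ℕ × ℕ) ⊕ ℕ) → Set (Cond2 F S0) := fun i => match i with
    | Sum.inl (b, i) => {p | ∃ j, ∀ l, ∀ q ≤ p, ∃ r ≤ q, Oin (O i j l) (r.x b) r.m}
    | Sum.inr (Sum.inl (b, i, j, l)) => {p | Oin (O i j l) (p.x b) p.m ∨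
        ∀ q ≤ p, ¬ Oin (O i j l) (q.x b) q.m}
    | Sum.inr (Sum.inr k) => {p | k ≤ p.m}
  obtain ⟨m0, hm0⟩ := hS0 Set.univ Filter.univ_mem
  let p0 : Cond2 F S0 := ⟨fun _ _ => false, 0, Set.univ, Filter.univ_mem, fun _ _ _ => trivial⟩
  have hD : ∀ i, ∀ p ≤ p0, ∃ q ≤ p, q ∈ D i := by
    rintro (⟨b, i⟩ | ⟨b, i, j, l⟩ | k) p hp
    · obtain ⟨j, p1, hp1, h1⟩ := hcon i ⟨p.x b, p.m, p.V, p.hV⟩
      obtain ⟨M, hM⟩ := hS0 p1.V p1.hV
      refine ⟨⟨fun c => if c = b then cut p1.x p1.m else glue (p.x c) p.m S0, max M p1.m, p1.V,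
        p1.hV, fun n hn hSn => hM n ((le_max_left _ _).trans hn) hSn⟩, ⟨?_, hp1.2, ?_⟩, j, ?_⟩
      · intro c
        by_cases hc : c = b
        · simp only [hc, if_true]
          exact hp1.1.trans (cut_ext (V := p1.V) _ (le_max_right _ _)) hp1.2
        · simp only [hc, if_false]
          refine ⟨hp1.1.1.trans (le_max_right _ _), fun n hn => by simp [glue, hn], ?_⟩
          intro n h2 _ h4
          simp only [glue, not_lt.2 h2, if_false] at h4
          exact p.hS n h2 h4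
      · intro n h2 h3 h4
        refine ⟨!b, ?_⟩
        have : (!b) ≠ b := by cases b <;> simp
        simp only [this, if_false, glue, not_lt.2 h2]
        exact h4
      · intro l q hq
        have h2 := (hq.1 b)
        simp only [if_true] at h2
        have hq' : (⟨q.x b, q.m, q.V, q.hV⟩ : Cond F) ≤ p1 :=
          ⟨(cut_ext (V := p1.V) p1.x (le_max_right M p1.m)).trans h2 subset_rfl, hq.2.1⟩
        obtain ⟨r, hr, hr'⟩ := h1 l _ hq'
        refine ⟨⟨fun c => if c = b then r.x else glue (q.x c) q.m S0, r.m, q.V, q.hV,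
          fun n hn hSn => q.hS n (hr.1.1.trans hn) hSn⟩, ⟨?_, subset_rfl, ?_⟩, ?_⟩
        · intro c
          by_cases hc : c = b
          · simp only [hc, if_true]
            exact hr.1
          · simp only [hc, if_false]
            refine ⟨hr.1.1, fun n hn => by simp [glue, hn], ?_⟩
            intro n h2 _ h4
            simp only [glue, not_lt.2 h2, if_false] at h4
            exact q.hS n h2 h4
        · intro n h2 h3 h4
          refine ⟨!b, ?_⟩
          have : (!b) ≠ b := by cases b <;> simp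
          simp only [this, if_false, glue, not_lt.2 h2]
          exact h4
        · simp only [if_true]
          exact hr'
    · by_cases h : ∃ q ≤ p, Oin (O i j l) (q.x b) q.m
      · obtain ⟨q, hq, hq'⟩ := h
        exact ⟨q, hq, Or.inl hq'⟩
      · push Not at h
        exact ⟨p, le_rfl, Or.inr h⟩
    · refine ⟨⟨fun c => glue (p.x c) p.m S0, max k p.m, p.V, p.hV,
        fun n hn hSn => p.hS n ((le_max_right _ _).trans hn) hSn⟩, ⟨?_, subset_rfl, ?_⟩,
        show k ≤ max k p.m from le_max_left _ _⟩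
      · intro c
        refine ⟨le_max_right _ _, fun n hn => by simp [glue, hn], ?_⟩
        intro n h2 _ h4
        simp only [glue, not_lt.2 h2, if_false] at h4
        exact p.hS n h2 h4
      · intro n h2 h3 h4
        exact ⟨true, by simp only [glue, not_lt.2 h2, if_false]; exact h4⟩
  obtain ⟨p, hp0, hp, hpD⟩ := generic D p0 hD
  have hlen : ∀ M, ∃ k, M ≤ (p k).m := fun M => hpD (Sum.inr (Sum.inr M))
  have hlim : ∀ b : Bool, ∃ x : ℕ → Bool, ∀ k, ∀ n < (p k).m, x n = (p k).x b n :=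
    fun b => exists_limit (Cond2.isStem F S0 b) p hp hlen
  choose x hx using hlim
  have hmem : ∀ b i, ∃ j, ∀ l, x b ∈ O i j l := by
    intro b i
    obtain ⟨k, j, hk⟩ := hpD (Sum.inl (b, i))
    exact ⟨j, limit_mem (stem := fun p : Cond2 F S0 => p.x b) (len := fun p => p.m) p hp (hx b) k hk
      (fun l => hpD (Sum.inr (Sum.inl (b, i, j, l))))⟩
  refine hpos (x true) (x false) (hmem true) (hmem false) ⟨0, fun n _ hn => ?_⟩
  obtain ⟨k, hk⟩ := hlen (n + 1)
  obtain ⟨b, hb⟩ := (hp0 k).2.2 n (Nat.zero_le _) hk hn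
  rw [← hx b k n hk] at hb
  cases b
  · exact Or.inr hb
  · exact Or.inl hb

/-! ### Splitting of convergent sets -/

theorem Conv.split {S : ℕ → Bool} {F G : Filter ℕ} [F.IsCountablyGenerated]
    [G.IsCountablyGenerated] (h : Conv S (F ⊔ G)) :
    ∃ S1 S2 : ℕ → Bool, (∀ n, S n = true → S1 n = true ∨ S2 n = true) ∧
      Conv S1 F ∧ Conv S2 G := by
  classical
  obtain ⟨A, hA⟩ := F.exists_antitone_basis
  obtain ⟨B, hB⟩ := G.exists_antitone_basis
  refine ⟨fun n => decide (S n = true ∧ ∀ k, n ∈ B k → n ∈ A k),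
    fun n => decide (S n = true ∧ ∀ k, n ∈ A k → n ∈ B k), fun n hn => ?_, ?_, ?_⟩
  · simp only [hn, true_and, decide_eq_true_eq]
    by_contra hcon
    push Not at hcon
    obtain ⟨⟨k, hk1, hk2⟩, ⟨k', hk1', hk2'⟩⟩ := hcon
    rcases le_total k k' with hk | hk
    · exact hk2 (hA.antitone hk hk1')
    · exact hk2' (hB.antitone hk hk1)
  · intro V hV
    obtain ⟨k, hk⟩ := hA.mem_iff.1 hV
    obtain ⟨m, hm⟩ := h (A k ∪ B k) ⟨mem_of_superset (hA.mem k) subset_union_left,
      mem_of_superset (hB.mem k) subset_union_right⟩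
    refine ⟨m, fun n hn hSn => hk ?_⟩
    simp only [decide_eq_true_eq] at hSn
    rcases hm n hn hSn.1 with h1 | h1
    · exact h1
    · exact hSn.2 k h1
  · intro V hV
    obtain ⟨k, hk⟩ := hB.mem_iff.1 hV
    obtain ⟨m, hm⟩ := h (A k ∪ B k) ⟨mem_of_superset (hA.mem k) subset_union_left,
      mem_of_superset (hB.mem k) subset_union_right⟩
    refine ⟨m, fun n hn hSn => hk ?_⟩
    simp only [decide_eq_true_eq] at hSn
    rcases hm n hn hSn.1 with h1 | h1
    · exact hSn.2 k h1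
    · exact h1

/-- Closure properties of (the set of characteristic functions of members of) an ideal. -/
structure ClosedFamily (J : Set (ℕ → Bool)) : Prop where
  sub : ∀ S T : ℕ → Bool, (∀ n, S n = true → T n = true) → T ∈ J → S ∈ J
  union : ∀ S T U : ℕ → Bool, (∀ n, U n = true → S n = true ∨ T n = true) → S ∈ J → T ∈ J → U ∈ J
  fin : ∀ (S : ℕ → Bool) (m : ℕ), (∀ n, m ≤ n → S n = false) → S ∈ J

section World

variable {X : Type*}

theorem world_countablyGenerated (F : X → Filter ℕ) (hF : ∀ η, (F η).IsCountablyGenerated)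
    (w : Set X) (hw : w.Finite) : (⨆ v ∈ w, F v).IsCountablyGenerated := by
  induction w, hw using Set.Finite.induction_on with
  | empty => simp only [mem_empty_iff_false, iSup_false, iSup_bot]; infer_instance
  | insert _ _ ih =>
    rw [iSup_insert]
    have := hF
    have := ih
    infer_instance

theorem world_mem (J : Set (ℕ → Bool)) (hJ : ClosedFamily J) (F : X → Filter ℕ)
    (hF : ∀ η, (F η).IsCountablyGenerated) (w : Set X) (hw : w.Finite)
    (hΛ : ∀ v ∈ w, ∀ S, Conv S (F v) → S ∈ J) :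
    ∀ S, Conv S (⨆ v ∈ w, F v) → S ∈ J := by
  induction w, hw using Set.Finite.induction_on with
  | empty =>
    intro S hS
    simp only [mem_empty_iff_false, iSup_false, iSup_bot] at hS
    obtain ⟨m, hm⟩ := hS ∅ (by simp)
    refine hJ.fin S m (fun n hn => ?_)
    by_contra hcon
    exact hm n hn (by simpa using hcon)
  | @insert v w _ hw ih =>
    intro S hS
    rw [iSup_insert] at hS
    have h1 := hF v
    have h2 := world_countablyGenerated F hF w hw
    obtain ⟨S1, S2, h3, h4, h5⟩ := hS.split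
    exact hJ.union S1 S2 S h3 (hΛ v (mem_insert _ _) S1 h4)
      (ih (fun v hv => hΛ v (mem_insert_of_mem _ hv)) S2 h5)

end World

/-! ### The main fusion -/

section Fusion

variable {X : Type*}

/-- Conditions of the main fusion. -/
structure Cond3 (F : X → Filter ℕ) (Q : Set X) (t0 : ℕ → Bool) (m0 : ℕ) (V0 : Set ℕ) where
  x : ℕ → Bool
  t : ℕ → Bool
  m : ℕ
  V : Set ℕ
  W : Set ℕ
  w : Set X
  q : X
  hfin : w.Finite
  hw : w ⊆ Q
  hV : ∀ v ∈ w, V ∈ F v
  hq : q ∈ w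
  hW : W ∈ F q
  hWV : W ⊆ V
  hW0 : W ⊆ V0
  ht : Ext V0 t0 m0 t m
  htx : ∀ n < m, t n = true → x n = true

variable {F : X → Filter ℕ} {Q : Set X} {t0 : ℕ → Bool} {m0 : ℕ} {V0 : Set ℕ}

instance : Preorder (Cond3 F Q t0 m0 V0) where
  le q p := Ext p.V p.x p.m q.x q.m ∧ Ext p.W p.t p.m q.t q.m ∧ q.V ⊆ p.V ∧ q.W ⊆ p.W ∧ p.w ⊆ q.w
  le_refl p := ⟨Ext.refl _ _ _, Ext.refl _ _ _, subset_rfl, subset_rfl, subset_rfl⟩
  le_trans r q p h1 h2 := ⟨h2.1.trans h1.1 h2.2.2.1, h2.2.1.trans h1.2.1 h2.2.2.2.1,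
    h1.2.2.1.trans h2.2.2.1, h1.2.2.2.1.trans h2.2.2.2.1, h2.2.2.2.2.trans h1.2.2.2.2⟩

theorem Cond3.isStemX : IsStem (fun p : Cond3 F Q t0 m0 V0 => p.x) (fun p => p.m) where
  len_le _ _ h := h.1.1
  agree _ _ h := h.1.2.1

theorem Cond3.isStemT : IsStem (fun p : Cond3 F Q t0 m0 V0 => p.t) (fun p => p.m) where
  len_le _ _ h := h.1.1
  agree _ _ h := h.2.1.2.1

theorem glue_ext {V : Set ℕ} {x t t' : ℕ → Bool} {m m' : ℕ} (h : Ext V t m t' m') :
    Ext V x m (glue x m t') m' := by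
  refine ⟨h.1, fun n hn => by simp [glue, hn], fun n h1 h2 h3 => ?_⟩
  simp only [glue, not_lt.2 h1, if_false] at h3
  exact h.2.2 n h1 h2 h3

theorem fusion [TopologicalSpace X] (hF : ∀ η, (F η).IsCountablyGenerated)
    (O : ℕ → ℕ → ℕ → Set (ℕ → Bool)) (hO : ∀ i j l, IsOpen (O i j l))
    (J : Set (ℕ → Bool)) (hJ : ClosedFamily J) (hJO : ∀ S, S ∈ J ↔ ∀ i, ∃ j, ∀ l, S ∈ O i j l)
    (N : Set X) (hN0 : N.Nonempty)
    (hopen : ∀ V, IsOpen {η | V ∈ F η})
    (hNQ : ∀ G : Set X, IsOpen G → (G ∩ N).Nonempty → (G ∩ Q).Nonempty)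
    (hQN : ∀ G : Set X, IsOpen G → (G ∩ Q).Nonempty → (G ∩ N).Nonempty)
    (hQ : ∀ v ∈ Q, ∀ S, Conv S (F v) → S ∈ J)
    (i0 : ℕ) (hV0 : ∀ η ∈ N, V0 ∈ F η)
    (hN : ∀ η ∈ N, ∀ p1 : Cond (F η), Ext V0 t0 m0 p1.x p1.m → p1.V ⊆ V0 → ∀ j, ∃ l, ∃ q ≤ p1,
      ∀ r ≤ q, ¬ Oin (O i0 j l) r.x r.m) : False := by
  let D : ℕ ⊕ ((ℕ × ℕ × ℕ) ⊕ (ℕ ⊕ ℕ)) → Set (Cond3 F Q t0 m0 V0) := fun i => match i with
    | Sum.inl i => {p | ∃ j, ∀ l, ∀ q ≤ p, ∃ r ≤ q, Oin (O i j l) r.x r.m}
    | Sum.inr (Sum.inl (i, j, l)) => {p | Oin (O i j l) p.x p.m ∨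
        ∀ q ≤ p, ¬ Oin (O i j l) q.x q.m}
    | Sum.inr (Sum.inr (Sum.inl j)) => {p | ∃ l, ∀ r ≤ p, ¬ Oin (O i0 j l) r.t r.m}
    | Sum.inr (Sum.inr (Sum.inr k)) => {p | k ≤ p.m}
  -- the initial condition
  obtain ⟨η0, hη0⟩ := hN0
  obtain ⟨q0, hq0, hq0Q⟩ := hNQ _ (hopen V0) ⟨η0, hV0 η0 hη0, hη0⟩
  let p0 : Cond3 F Q t0 m0 V0 := ⟨t0, t0, m0, V0, V0, {q0}, q0, finite_singleton _,
    singleton_subset_iff.2 hq0Q, fun v hv => by rw [mem_singleton_iff.1 hv]; exact hq0,
    mem_singleton _, hq0, subset_rfl, subset_rfl, Ext.refl _ _ _, fun _ _ h => h⟩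
  have hD : ∀ i, ∀ p ≤ p0, ∃ q ≤ p, q ∈ D i := by
    rintro (i | ⟨i, j, l⟩ | j | k) p hp
    · -- the `S`-task
      have hcg := world_countablyGenerated F hF p.w p.hfin
      have hworld : ∀ S, Conv S (⨆ v ∈ p.w, F v) → ∃ j, ∀ l, S ∈ O i j l := fun S hS =>
        (hJO S).1 (world_mem J hJ F hF p.w p.hfin (fun v hv => hQ v (p.hw hv)) S hS) i
      obtain ⟨j, p1, hp1, h1⟩ := baire_step (⨆ v ∈ p.w, F v) (O i) (hO i) hworld
        ⟨p.x, p.m, p.V, by simpa using p.hV⟩
      have hp1V : ∀ v ∈ p.w, p1.V ∈ F v := by simpa using p1.hV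
      refine ⟨⟨p1.x, cut p.t p.m, p1.m, p1.V, p.W ∩ p1.V, p.w, p.q, p.hfin, p.hw, hp1V, p.hq,
        inter_mem p.hW (hp1V _ p.hq), inter_subset_right, inter_subset_left.trans p.hW0,
        p.ht.trans (cut_ext (V := V0) _ hp1.1.1) subset_rfl, ?_⟩,
        ⟨hp1.1, cut_ext _ hp1.1.1, hp1.2, inter_subset_left, subset_rfl⟩, j, ?_⟩
      · intro n _ hn
        by_cases h : n < p.m
        · simp only [cut, h, if_true] at hn
          rw [hp1.1.2.1 n h]
          exact p.htx n h hn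
        · simp [cut, h] at hn
      · intro l q hq
        have hqV : q.V ∈ ⨆ v ∈ p.w, F v := by
          simp only [mem_iSup]
          exact fun v hv => q.hV v (hq.2.2.2.2 hv)
        obtain ⟨r, hr, hr'⟩ := h1 l ⟨q.x, q.m, q.V, hqV⟩ ⟨hq.1, hq.2.2.1⟩
        refine ⟨⟨r.x, cut q.t q.m, r.m, q.V, q.W, q.w, q.q, q.hfin, q.hw, q.hV, q.hq, q.hW, q.hWV,
          q.hW0, q.ht.trans (cut_ext (V := V0) _ hr.1.1) subset_rfl, ?_⟩,
          ⟨hr.1, cut_ext _ hr.1.1, subset_rfl, subset_rfl, subset_rfl⟩, hr'⟩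
        intro n _ hn
        by_cases h : n < q.m
        · simp only [cut, h, if_true] at hn
          rw [hr.1.2.1 n h]
          exact q.htx n h hn
        · simp [cut, h] at hn
    · by_cases h : ∃ q ≤ p, Oin (O i j l) q.x q.m
      · obtain ⟨q, hq, hq'⟩ := h
        exact ⟨q, hq, Or.inl hq'⟩
      · push Not at h
        exact ⟨p, le_rfl, Or.inr h⟩
    · -- the `T`-task
      obtain ⟨η, hη, hηN⟩ := hQN _ (hopen p.W) ⟨p.q, p.hW, p.hw p.hq⟩
      obtain ⟨l, p1, hp1, h1⟩ := hN η hηN ⟨p.t, p.m, p.W, hη⟩ p.ht p.hW0 j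
      obtain ⟨q', hq', hq'Q⟩ := hNQ _ (hopen p1.V) ⟨η, p1.hV, hηN⟩
      refine ⟨⟨glue p.x p.m p1.x, p1.x, p1.m, p.V, p1.V, insert q' p.w, q', p.hfin.insert _,
        insert_subset hq'Q p.hw, ?_, mem_insert _ _, hq', hp1.2.trans p.hWV,
        hp1.2.trans p.hW0, p.ht.trans hp1.1 p.hW0, ?_⟩,
        ⟨?_, hp1.1, subset_rfl, hp1.2, subset_insert _ _⟩, l, ?_⟩
      · intro v hv
        rcases hv with hv | hv
        · rw [hv]
          exact mem_of_superset hq' (hp1.2.trans p.hWV)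
        · exact p.hV v hv
      · intro n _ hn
        by_cases h : n < p.m
        · simp only [glue, h, if_true]
          rw [hp1.1.2.1 n h] at hn
          exact p.htx n h hn
        · simp only [glue, h, if_false]
          exact hn
      · refine ⟨hp1.1.1, fun n hn => by simp [glue, hn], fun n h2 h3 h4 => ?_⟩
        simp only [glue, not_lt.2 h2, if_false] at h4
        exact p.hWV (hp1.1.2.2 n h2 h3 h4)
      · intro r hr
        exact h1 ⟨r.t, r.m, p1.V, p1.hV⟩ ⟨hr.2.1, subset_rfl⟩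
    · refine ⟨⟨cut p.x p.m, cut p.t p.m, max k p.m, p.V, p.W, p.w, p.q, p.hfin, p.hw, p.hV, p.hq,
        p.hW, p.hWV, p.hW0, p.ht.trans (cut_ext (V := V0) _ (le_max_right _ _)) subset_rfl, ?_⟩,
        ⟨cut_ext _ (le_max_right _ _), cut_ext _ (le_max_right _ _), subset_rfl, subset_rfl,
          subset_rfl⟩, show k ≤ max k p.m from le_max_left _ _⟩
      intro n _ hn
      by_cases h : n < p.m
      · simp only [cut, h, if_true] at hn ⊢
        exact p.htx n h hn
      · simp [cut, h] at hn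
  obtain ⟨p, _, hp, hpD⟩ := generic D p0 hD
  have hlen : ∀ M, ∃ k, M ≤ (p k).m := fun M => hpD (Sum.inr (Sum.inr (Sum.inr M)))
  obtain ⟨S, hS⟩ := exists_limit Cond3.isStemX p hp hlen
  obtain ⟨T, hT⟩ := exists_limit Cond3.isStemT p hp hlen
  have hSJ : S ∈ J := by
    rw [hJO]
    intro i
    obtain ⟨k, j, hk⟩ := hpD (Sum.inl i)
    exact ⟨j, limit_mem (stem := fun p : Cond3 F Q t0 m0 V0 => p.x) (len := fun p => p.m) p hp hS k
      hk (fun l => hpD (Sum.inr (Sum.inl (i, j, l))))⟩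
  have hTJ : T ∉ J := by
    rw [hJO]
    push Not
    refine ⟨i0, fun j => ?_⟩
    obtain ⟨k, l, hk⟩ := hpD (Sum.inr (Sum.inr (Sum.inl j)))
    exact ⟨l, limit_not_mem Cond3.isStemT p hp hlen (hO i0 j l) hT k hk⟩
  apply hTJ
  refine hJ.sub T S (fun n hn => ?_) hSJ
  obtain ⟨k, hk⟩ := hlen (n + 1)
  rw [hT k n hk] at hn
  rw [hS k n hk]
  exact (p k).htx n hk hn

end Fusion


/-! ### Covering by countably many closed subsets -/

section Cover

variable {X : Type*} [TopologicalSpace X]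

/-- `A` is covered by countably many closed subsets of `L`. -/
def Coverable (L A : Set X) : Prop :=
  ∃ C : Set (Set X), C.Countable ∧ (∀ c ∈ C, IsClosed c ∧ c ⊆ L) ∧ A ⊆ ⋃₀ C

theorem Coverable.mono {L A B : Set X} (h : Coverable L B) (hAB : A ⊆ B) : Coverable L A := by
  obtain ⟨C, h1, h2, h3⟩ := h
  exact ⟨C, h1, h2, hAB.trans h3⟩

theorem Coverable.iUnion {L : Set X} {ι : Type*} [Countable ι] {A : ι → Set X}
    (h : ∀ i, Coverable L (A i)) : Coverable L (⋃ i, A i) := by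
  choose C h1 h2 h3 using h
  refine ⟨⋃ i, C i, countable_iUnion h1, fun c hc => ?_, iUnion_subset fun i => ?_⟩
  · obtain ⟨i, hi⟩ := mem_iUnion.1 hc
    exact h2 i c hi
  · exact (h3 i).trans (sUnion_subset_sUnion (subset_iUnion C i))

theorem Coverable.union {L A B : Set X} (h : Coverable L A) (h' : Coverable L B) :
    Coverable L (A ∪ B) := by
  obtain ⟨C, h1, h2, h3⟩ := h
  obtain ⟨C', h1', h2', h3'⟩ := h'
  refine ⟨C ∪ C', h1.union h1', fun c hc => ?_, ?_⟩
  · rcases hc with hc | hc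
    · exact h2 c hc
    · exact h2' c hc
  · rw [sUnion_union]
    exact union_subset_union h3 h3'

theorem exists_kernel [SecondCountableTopology X] [RegularSpace X] {L A : Set X}
    (hA : ¬ Coverable L A) :
    ∃ N ⊆ A, N.Nonempty ∧ ∀ G : Set X, IsOpen G → (G ∩ N).Nonempty →
      (G ∩ (closure N \ L)).Nonempty := by
  let b := TopologicalSpace.countableBasis X
  have hb := TopologicalSpace.isBasis_countableBasis X
  have hbc := TopologicalSpace.countable_countableBasis X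
  let b' : Set (Set X) := {B ∈ b | Coverable L (A ∩ B)}
  have hb'c : b'.Countable := hbc.mono (fun B hB => hB.1)
  have hcov : Coverable L (A ∩ ⋃₀ b') := by
    have : Countable b' := hb'c.to_subtype
    rw [sUnion_eq_iUnion, inter_iUnion]
    exact Coverable.iUnion (fun B => B.2.2)
  refine ⟨A \ ⋃₀ b', sdiff_subset, ?_, ?_⟩
  · by_contra hcon
    rw [not_nonempty_iff_eq_empty, sdiff_eq_empty] at hcon
    exact hA (hcov.mono (subset_inter subset_rfl hcon))
  · rintro G hG ⟨η, hηG, hηN⟩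
    obtain ⟨K, ⟨hK, hKc⟩, hKG⟩ := (closed_nhds_basis η).mem_iff.1 (hG.mem_nhds hηG)
    simp only [id] at hKG
    obtain ⟨B, hB, hηB, hBK⟩ := hb.mem_nhds_iff.1 hK
    by_contra hcon
    rw [not_nonempty_iff_eq_empty] at hcon
    have h1 : closure ((A \ ⋃₀ b') ∩ B) ⊆ L := by
      intro y hy
      by_contra hyL
      have hyG : y ∈ G := hKG (closure_minimal (inter_subset_right.trans hBK) hKc hy)
      have : y ∈ G ∩ (closure (A \ ⋃₀ b') \ L) :=
        ⟨hyG, closure_mono inter_subset_left hy, hyL⟩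
      rw [hcon] at this
      exact this
    have h2 : Coverable L (A ∩ B) := by
      have h3 : Coverable L ((A \ ⋃₀ b') ∩ B) :=
        ⟨{closure ((A \ ⋃₀ b') ∩ B)}, countable_singleton _, fun c hc => by
          rw [mem_singleton_iff.1 hc]; exact ⟨isClosed_closure, h1⟩, by
          rw [sUnion_singleton]; exact subset_closure⟩
      refine (h3.union hcov).mono ?_
      rintro y ⟨hyA, hyB⟩
      by_cases hy : y ∈ ⋃₀ b'
      · exact Or.inr ⟨hyA, hy⟩
      · exact Or.inl ⟨⟨hyA, hy⟩, hyB⟩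
    exact hηN.2 ⟨B, ⟨hB, h2⟩, hηB⟩

/-- The set of points to whose filter some `J`-positive set converges. -/
def Lam (J : Set (ℕ → Bool)) (F : X → Filter ℕ) : Set X := {η | ∃ S, S ∉ J ∧ Conv S (F η)}

theorem lam_coverable [SecondCountableTopology X] [RegularSpace X]
    {ι : Type*} [Countable ι]
    (F : X → Filter ℕ) (B : ι → Set ℕ) (hB : ∀ η V, V ∈ F η → ∃ k, B k ∈ F η ∧ B k ⊆ V)
    (hopen : ∀ V, IsOpen {η | V ∈ F η})
    (O : ℕ → ℕ → ℕ → Set (ℕ → Bool)) (hO : ∀ i j l, IsOpen (O i j l))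
    (J : Set (ℕ → Bool)) (hJ : ClosedFamily J) (hJO : ∀ S, S ∈ J ↔ ∀ i, ∃ j, ∀ l, S ∈ O i j l) :
    Coverable (Lam J F) (Lam J F) := by
  have hcg : ∀ η, (F η).IsCountablyGenerated := by
    intro η
    have hbasis : (F η).HasBasis (fun k => B k ∈ F η) B := by
      refine ⟨fun V => ⟨fun hV => hB η V hV, ?_⟩⟩
      rintro ⟨k, hk, hkV⟩
      exact mem_of_superset hk hkV
    exact HasCountableBasis.isCountablyGenerated ⟨hbasis, to_countable _⟩
  let str : Finset ℕ → ℕ → Bool := fun t n => decide (n ∈ t)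
  let A : ℕ × Finset ℕ × ℕ × ι → Set X := fun a => {η | η ∈ Lam J F ∧ B a.2.2.2 ∈ F η ∧
    ∀ p1 : Cond (F η), Ext (B a.2.2.2) (str a.2.1) a.2.2.1 p1.x p1.m → p1.V ⊆ B a.2.2.2 →
      ∀ j, ∃ l, ∃ q ≤ p1, ∀ r ≤ q, ¬ Oin (O a.1 j l) r.x r.m}
  have hA : ∀ a, Coverable (Lam J F) (A a) := by
    intro a
    by_contra hcon
    obtain ⟨N, hNA, hN0, hN⟩ := exists_kernel hcon
    refine fusion (Q := closure N \ Lam J F) (t0 := str a.2.1) (m0 := a.2.2.1) (V0 := B a.2.2.2)
      hcg O hO J hJ hJO N hN0 hopen hN ?_ ?_ a.1 (fun η hη => (hNA hη).2.1)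
      (fun η hη => (hNA hη).2.2)
    · rintro G hG ⟨y, hyG, hy, _⟩
      exact mem_closure_iff.1 hy G hG hyG
    · rintro v ⟨_, hv⟩ S hS
      by_contra hSJ
      exact hv ⟨S, hSJ, hS⟩
  refine (Coverable.iUnion hA).mono ?_
  rintro η ⟨S0, hS0, hconv⟩
  obtain ⟨i, p, hp⟩ := positive_step (F η) O S0 hconv (by
    rintro y z hy hz ⟨m, hm⟩
    rw [← hJO] at hy hz
    apply hS0
    refine hJ.union (cut S0 m) (fun n => y n || z n) S0 (fun n hn => ?_)
      (hJ.fin _ m (fun n hn => by simp [cut, not_lt.2 hn])) (hJ.union y z _ (fun n hn => ?_) hy hz)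
    · by_cases h : n < m
      · exact Or.inl (by simp [cut, h, hn])
      · right
        simpa using hm n (not_lt.1 h) hn
    · simpa using hn)
  obtain ⟨k, hk, hkV⟩ := hB η p.V p.hV
  refine mem_iUnion.2 ⟨(i, (Finset.range p.m).filter (fun n => p.x n = true), p.m, k),
    ⟨S0, hS0, hconv⟩, hk, fun p1 h1 h2 j => hp j p1 ⟨⟨h1.1, fun n hn => ?_, fun n h3 h4 h5 =>
      hkV (h1.2.2 n h3 h4 h5)⟩, h2.trans hkV⟩⟩
  rw [h1.2.1 n hn]
  simp only [str, Finset.mem_filter, Finset.mem_range]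
  cases hx : p.x n <;> simp [hn]

end Cover


/-! ### Talagrand-type blocks -/

open Classical in
/-- The characteristic function of a set. -/
noncomputable def chi (B : Set ℕ) : ℕ → Bool := fun n => decide (n ∈ B)

@[simp] theorem chi_eq_true {B : Set ℕ} {n : ℕ} : chi B n = true ↔ n ∈ B := by
  simp [chi]

section Blocks

variable (O : ℕ → ℕ → ℕ → Set (ℕ → Bool)) (hO : ∀ i j l, IsOpen (O i j l))
  (J : Set (ℕ → Bool)) (hJ : ClosedFamily J) (hJO : ∀ S, S ∈ J ↔ ∀ i, ∃ j, ∀ l, S ∈ O i j l)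

include hO hJ hJO

omit hO in
theorem hpos_of (S0 : ℕ → Bool) (hS0 : S0 ∉ J) (y z : ℕ → Bool)
    (hy : ∀ i, ∃ j, ∀ l, y ∈ O i j l) (hz : ∀ i, ∃ j, ∀ l, z ∈ O i j l) :
    ¬ ∃ m, ∀ n, m ≤ n → S0 n = true → (y n = true ∨ z n = true) := by
  rintro ⟨m, hm⟩
  rw [← hJO] at hy hz
  apply hS0
  refine hJ.union (cut S0 m) (fun n => y n || z n) S0 (fun n hn => ?_)
    (hJ.fin _ m (fun n hn => by simp [cut, not_lt.2 hn])) (hJ.union y z _ (fun n hn => ?_) hy hz)
  · by_cases h : n < m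
    · exact Or.inl (by simp [cut, h, hn])
    · right
      simpa using hm n (not_lt.1 h) hn
  · simpa using hn

omit hO hJ hJO in
theorem block_step (i : ℕ) (B : Set ℕ) (x : ℕ → Bool) (m : ℕ)
    (hP : ∀ j t m1, Ext B x m t m1 → ∃ l t' m', Ext B t m1 t' m' ∧
      ∀ y m'', Ext B t' m' y m'' → ¬ Oin (O i j l) y m'') (M : ℕ) (hM : m ≤ M)
    (R : Finset (Finset ℕ × ℕ)) :
    ∃ M', M ≤ M' ∧ ∃ u : ℕ → Bool, (∀ n, u n = true → n ∈ B) ∧ ∀ a ∈ R,
      Ext B x m (fun n => decide (n ∈ a.1)) M → ∃ l, ∀ y m'', M' ≤ m'' →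
        (∀ n < M, y n = decide (n ∈ a.1)) → (∀ n, M ≤ n → n < M' → y n = u n) →
        (∀ n, M' ≤ n → n < m'' → y n = true → n ∈ B) → ¬ Oin (O i a.2 l) y m'' := by
  classical
  induction R using Finset.induction_on with
  | empty => exact ⟨M, le_rfl, fun _ => false, by simp, by simp⟩
  | insert a R _ ih =>
    obtain ⟨M', hM', u, hu, h1⟩ := ih
    by_cases ha : Ext B x m (fun n => decide (n ∈ a.1)) M
    · have hz : Ext B x m (glue (fun n => decide (n ∈ a.1)) M u) M' := by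
        refine ⟨hM.trans hM', fun n hn => ?_, fun n h2 h3 h4 => ?_⟩
        · simp only [glue, lt_of_lt_of_le hn hM, if_true]
          exact ha.2.1 n hn
        · by_cases h5 : n < M
          · simp only [glue, h5, if_true] at h4
            exact ha.2.2 n h2 h5 h4
          · simp only [glue, h5, if_false] at h4
            exact hu n h4
      obtain ⟨l, t', m', h2, h3⟩ := hP a.2 _ M' hz
      refine ⟨m', hM'.trans h2.1, fun n => if n < M' then u n else (cut t' m') n, ?_, ?_⟩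
      · intro n hn
        by_cases h4 : n < M'
        · simp only [h4, if_true] at hn
          exact hu n hn
        · simp only [h4, if_false, cut] at hn
          by_cases h5 : n < m'
          · simp only [h5, if_true] at hn
            exact h2.2.2 n (not_lt.1 h4) h5 hn
          · simp [h5] at hn
      · intro b hb hbE
        rcases Finset.mem_insert.1 hb with hb | hb
        · subst hb
          refine ⟨l, fun y m'' h4 h5 h6 h7 => h3 y m'' ⟨h4, fun n hn => ?_, h7⟩⟩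
          by_cases h8 : n < M
          · rw [h5 n h8, h2.2.1 n (lt_of_lt_of_le h8 hM')]
            simp [glue, h8]
          · have h9 := h6 n (not_lt.1 h8) hn
            by_cases h10 : n < M'
            · simp only [h10, if_true] at h9
              rw [h9, h2.2.1 n h10]
              simp [glue, h8]
            · simp only [h10, if_false, cut, hn, if_true] at h9
              exact h9
        · obtain ⟨l', hl'⟩ := h1 b hb hbE
          refine ⟨l', fun y m'' h4 h5 h6 h7 => hl' y m'' (h2.1.trans h4) h5 (fun n h8 h9 => ?_)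
            (fun n h8 h9 h10 => ?_)⟩
          · rw [h6 n h8 (lt_of_lt_of_le h9 h2.1)]
            simp [h9]
          · by_cases h11 : n < m'
            · have h12 := h6 n (hM'.trans h8) h11
              simp only [not_lt.2 h8, if_false, cut, h11, if_true] at h12
              rw [h12] at h10
              exact h2.2.2 n h8 h11 h10
            · exact h7 n (not_lt.1 h11) h9 h10
    · refine ⟨M', hM', u, hu, fun b hb hbE => ?_⟩
      rcases Finset.mem_insert.1 hb with hb | hb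
      · subst hb
        exact absurd hbE ha
      · exact h1 b hb hbE

theorem exists_blocks (B : Set ℕ) (hB : chi B ∉ J) :
    ∃ M : ℕ → ℕ, StrictMono M ∧ ∀ a : Set ℕ, a.Infinite →
      chi {n | n ∈ B ∧ ∃ k ∈ a, M k ≤ n ∧ n < M (k + 1)} ∉ J := by
  classical
  obtain ⟨i, p, hp⟩ := positive_step (𝓟 B) O (chi B) (fun V hV => ⟨0, fun n _ hn => hV (by
    simpa using hn)⟩) (hpos_of O J hJ hJO (chi B) hB)
  have hP : ∀ j t m1, Ext B p.x p.m t m1 → ∃ l t' m', Ext B t m1 t' m' ∧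
      ∀ y m'', Ext B t' m' y m'' → ¬ Oin (O i j l) y m'' := by
    intro j t m1 ht
    have hpV : B ⊆ p.V := p.hV
    obtain ⟨l, q, hq, hq'⟩ := hp j ⟨t, m1, B, mem_principal_self B⟩
      ⟨⟨ht.1, ht.2.1, fun n h1 h2 h3 => hpV (ht.2.2 n h1 h2 h3)⟩, hpV⟩
    have hqV : B ⊆ q.V := q.hV
    refine ⟨l, q.x, q.m, hq.1, fun y m'' hy => hq' ⟨y, m'', B, mem_principal_self B⟩
      ⟨⟨hy.1, hy.2.1, fun n h1 h2 h3 => hqV (hy.2.2 n h1 h2 h3)⟩, hqV⟩⟩
  have step : ∀ M, p.m ≤ M → ∃ M', M < M' ∧ ∃ u : ℕ → Bool, (∀ n, u n = true → n ∈ B) ∧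
      ∀ t, Ext B p.x p.m t M → ∀ j < M, ∃ l, ∀ y m'', M' ≤ m'' →
        (∀ n < M, y n = t n) → (∀ n, M ≤ n → n < M' → y n = u n) →
        (∀ n, M' ≤ n → n < m'' → y n = true → n ∈ B) → ¬ Oin (O i j l) y m'' := by
    intro M hM
    obtain ⟨M', hM', u, hu, h1⟩ := block_step O i B p.x p.m hP M hM
      ((Finset.range M).powerset ×ˢ Finset.range M)
    refine ⟨M' + 1, Nat.lt_succ_of_le hM', cut u M', fun n hn => ?_, fun t ht j hj => ?_⟩
    · by_cases h2 : n < M'
      · simp only [cut, h2, if_true] at hn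
        exact hu n hn
      · simp [cut, h2] at hn
    · have h2 : ∀ n < M, decide (n ∈ (Finset.range M).filter (fun n => t n = true)) = t n := by
        intro n hn
        simp only [Finset.mem_filter, Finset.mem_range, hn, true_and]
        cases t n <;> simp
      obtain ⟨l, hl⟩ := h1 ((Finset.range M).filter (fun n => t n = true), j) (by
        simp only [Finset.mem_product, Finset.mem_powerset, Finset.filter_subset, true_and,
          Finset.mem_range]
        exact hj) ⟨hM, fun n hn => by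
          show decide _ = _
          rw [h2 n (lt_of_lt_of_le hn hM)]; exact ht.2.1 n hn, fun n h3 h4 h5 => by
          change decide _ = _ at h5
          rw [h2 n h4] at h5; exact ht.2.2 n h3 h4 h5⟩
      refine ⟨l, fun y m'' h3 h4 h5 h6 => hl y m'' ((Nat.le_succ _).trans h3)
        (fun n hn => by show _ = decide _; rw [h4 n hn, h2 n hn]) (fun n h7 h8 => ?_)
        (fun n h7 h8 h9 => ?_)⟩
      · rw [h5 n h7 (Nat.lt_succ_of_lt h8)]
        simp [cut, h8]
      · by_cases h10 : n < M' + 1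
        · have h11 : n = M' := by omega
          subst h11
          rw [h5 n (hM'.trans h7) h10] at h9
          simp [cut] at h9
        · exact h6 n (not_lt.1 h10) h8 h9
  choose! nx h1 u hu h2 using step
  let M : ℕ → ℕ := fun k => Nat.rec p.m (fun _ r => nx r) k
  have hMm : ∀ k, p.m ≤ M k := by
    intro k
    induction k with
    | zero => exact le_rfl
    | succ k ih => exact ih.trans (h1 (M k) ih).le
  have hM : StrictMono M := strictMono_nat_of_lt_succ (fun k => h1 (M k) (hMm k))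
  refine ⟨M, hM, fun a ha hcon => ?_⟩
  -- the generic set
  let y : ℕ → Bool := fun n => if n < p.m then p.x n else
    chi {n | ∃ k ∈ a, M k ≤ n ∧ n < M (k + 1) ∧ u (M k) n = true} n
  have hyB : ∀ n, p.m ≤ n → y n = true → n ∈ B := by
    intro n hn hy
    simp only [y, not_lt.2 hn, if_false, chi_eq_true] at hy
    obtain ⟨k, _, _, _, hk⟩ := hy
    exact hu (M k) (hMm k) n hk
  have hyJ : y ∈ J := by
    refine hJ.union (cut p.x p.m) _ y (fun n hn => ?_)
      (hJ.fin _ p.m (fun n hn => by simp [cut, not_lt.2 hn])) hcon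
    by_cases h3 : n < p.m
    · left
      simp only [y, h3, if_true] at hn
      simp [cut, h3, hn]
    · right
      rw [chi_eq_true]
      refine ⟨hyB n (not_lt.1 h3) hn, ?_⟩
      simp only [y, h3, if_false, chi_eq_true] at hn
      obtain ⟨k, hk, hk1, hk2, _⟩ := hn
      exact ⟨k, hk, hk1, hk2⟩
  obtain ⟨j, hj⟩ := (hJO y).1 hyJ i
  obtain ⟨k, hka, hk⟩ := ha.exists_gt j
  obtain ⟨l, hl⟩ := h2 (M k) (hMm k) y ⟨hMm k, fun n hn => by simp [y, hn],
    fun n h3 _ h5 => hyB n h3 h5⟩ j (lt_of_lt_of_le hk hM.le_apply)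
  obtain ⟨m', hm'⟩ := exists_Oin (hO i j l) (hj l)
  refine hl y (max m' (M (k + 1))) (le_max_right _ _) (fun _ _ => rfl) (fun n h3 h4 => ?_)
    (fun n h3 _ h5 => hyB n ((hMm (k + 1)).trans h3) h5) (hm'.mono (le_max_left _ _))
  have h5 : ¬ n < p.m := not_lt.2 ((hMm k).trans h3)
  simp only [y, h5, if_false]
  cases hun : u (M k) n
  · rw [← Bool.not_eq_true, chi_eq_true]
    rintro ⟨k', _, h6, h7, h8⟩
    have h9 : k' = k := by
      have h10 : k' < k + 1 := hM.lt_iff_lt.1 (lt_of_le_of_lt h6 h4)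
      have h11 : k < k' + 1 := hM.lt_iff_lt.1 (lt_of_le_of_lt h3 h7)
      omega
    subst h9
    rw [hun] at h8
    exact absurd h8 (by simp)
  · rw [chi_eq_true]
    exact ⟨k, hka, h3, h4, hun⟩

end Blocks


/-! ### No copy of `Fin²` -/

section NoFin2

/-- The filter at `c` of sets containing some `{n ∈ S0 | h n < k → c (h n)}`. -/
def colFilter (S0 : Set ℕ) (h : ℕ → ℕ) (c : ℕ → Bool) : Filter ℕ where
  sets := {V | ∃ k, {n | n ∈ S0 ∧ (h n < k → c (h n) = true)} ⊆ V}
  univ_sets := ⟨0, subset_univ _⟩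
  sets_of_superset := fun ⟨k, hk⟩ h => ⟨k, hk.trans h⟩
  inter_sets := by
    rintro V W ⟨k, hk⟩ ⟨l, hl⟩
    refine ⟨max k l, fun n hn => ⟨hk ⟨hn.1, fun h => hn.2 (lt_of_lt_of_le h (le_max_left _ _))⟩,
      hl ⟨hn.1, fun h => hn.2 (lt_of_lt_of_le h (le_max_right _ _))⟩⟩⟩

theorem mem_colFilter {S0 : Set ℕ} {h : ℕ → ℕ} {c : ℕ → Bool} {V : Set ℕ} :
    V ∈ colFilter S0 h c ↔ ∃ k, {n | n ∈ S0 ∧ (h n < k → c (h n) = true)} ⊆ V := Iff.rfl

theorem isOpen_agree (c : ℕ → Bool) (k : ℕ) : IsOpen {c' : ℕ → Bool | ∀ i < k, c' i = c i} := by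
  have : {c' : ℕ → Bool | ∀ i < k, c' i = c i} =
      Set.pi (Finset.range k : Set ℕ) (fun i => {c i}) := by
    ext c'
    simp [Set.mem_pi]
  rw [this]
  exact isOpen_set_pi (Finset.finite_toSet _) (fun i _ => isOpen_discrete _)

variable (O : ℕ → ℕ → ℕ → Set (ℕ → Bool)) (hO : ∀ i j l, IsOpen (O i j l))
  (J : Set (ℕ → Bool)) (hJ : ClosedFamily J) (hJO : ∀ S, S ∈ J ↔ ∀ i, ∃ j, ∀ l, S ∈ O i j l)

include hO hJ hJO

theorem no_fin2 (S0 : Set ℕ) (h : ℕ → ℕ) (hS0 : chi S0 ∉ J)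
    (h1 : ∀ k, chi {n | n ∈ S0 ∧ h n = k} ∈ J)
    (h2 : ∀ T : Set ℕ, T ⊆ S0 → (∀ k, {n | n ∈ T ∧ h n = k}.Finite) → chi T ∈ J) : False := by
  classical
  -- the family of limit points
  have hopen : ∀ V, IsOpen {c | V ∈ colFilter S0 h c} := by
    intro V
    rw [isOpen_iff_mem_nhds]
    rintro c ⟨k, hk⟩
    refine mem_of_superset ((isOpen_agree c k).mem_nhds (fun _ _ => rfl)) ?_
    intro c' hc'
    refine ⟨k, fun n hn => hk ⟨hn.1, fun hlt => ?_⟩⟩
    rw [← hc' _ hlt]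
    exact hn.2 hlt
  have hcov := lam_coverable (colFilter S0 h)
    (fun a : Finset ℕ × ℕ => {n | n ∈ S0 ∧ (h n < a.2 → h n ∈ a.1)}) (by
      rintro c V ⟨k, hk⟩
      refine ⟨((Finset.range k).filter (fun n => c n = true), k), ⟨k, fun n hn => ⟨hn.1, fun hlt =>
        ?_⟩⟩, fun n hn => hk ⟨hn.1, fun hlt => ?_⟩⟩
      · simp only [Finset.mem_filter, Finset.mem_range]
        exact ⟨hlt, hn.2 hlt⟩
      · have := hn.2 hlt
        simp only [Finset.mem_filter, Finset.mem_range] at this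
        exact this.2) hopen O hO J hJ hJO
  have hLam : ∀ c, c ∉ Lam J (colFilter S0 h) ↔ chi {n | n ∈ S0 ∧ c (h n) = true} ∈ J := by
    intro c
    constructor
    · intro hc
      by_contra hcon
      exact hc ⟨_, hcon, fun V ⟨k, hk⟩ => ⟨0, fun n _ hn => hk (by
        rw [chi_eq_true] at hn
        exact ⟨hn.1, fun _ => hn.2⟩)⟩⟩
    · rintro hc ⟨S, hS, hconv⟩
      apply hS
      -- split `S`
      obtain ⟨m, hm⟩ := hconv S0 ⟨0, fun n hn => hn.1⟩
      have h3 : chi {n | S n = true ∧ m ≤ n ∧ c (h n) = false} ∈ J := by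
        apply h2
        · intro n hn
          exact hm n hn.2.1 hn.1
        · intro k
          obtain ⟨m', hm'⟩ := hconv _ ⟨k + 1, subset_rfl⟩
          refine (Set.finite_lt_nat m').subset ?_
          rintro n ⟨⟨hn1, hn2, hn3⟩, hn4⟩
          by_contra hcon
          have := (hm' n (not_lt.1 hcon) hn1).2 (by omega)
          rw [hn3] at this
          exact absurd this (by simp)
      refine hJ.union _ _ S (fun n hn => ?_) (hJ.union _ _
        (chi {n | S n = true ∧ (m ≤ n → c (h n) = false)}) (fun n hn => ?_)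
        (hJ.fin (cut S m) m (fun n hn => by simp [cut, not_lt.2 hn])) h3) hc
      · simp only [chi_eq_true, mem_ofPred_eq]
        by_cases h4 : m ≤ n
        · cases h5 : c (h n)
          · exact Or.inl ⟨hn, fun _ => rfl⟩
          · exact Or.inr ⟨hm n h4 hn, rfl⟩
        · exact Or.inl ⟨hn, fun h5 => absurd h5 h4⟩
      · simp only [chi_eq_true, mem_ofPred_eq] at hn ⊢
        by_cases h4 : m ≤ n
        · exact Or.inr ⟨hn.1, h4, hn.2 h4⟩
        · exact Or.inl (by simp [cut, not_le.1 h4, hn.1])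
  obtain ⟨C, hC1, hC2, hC3⟩ := hcov
  have hK : IsGδ (Lam J (colFilter S0 h))ᶜ := by
    have : (Lam J (colFilter S0 h))ᶜ = ⋂ c ∈ C, cᶜ := by
      ext y
      simp only [mem_compl_iff, mem_iInter]
      constructor
      · intro hy c hc hyc
        exact hy ((hC2 c hc).2 hyc)
      · intro hy hyL
        obtain ⟨c, hc, hyc⟩ := hC3 hyL
        exact hy c hc hyc
    rw [this]
    exact IsGδ.biInter_of_isOpen hC1 (fun c hc => (hC2 c hc).1.isOpen_compl)
  let flip : (ℕ → Bool) → (ℕ → Bool) := fun c n => !(c n)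
  have hflip : Continuous flip :=
    continuous_pi fun n => (continuous_of_discreteTopology (f := Bool.not)).comp (continuous_apply n)
  have hfin : ∀ (s : Finset ℕ), chi {n | n ∈ S0 ∧ h n ∈ s} ∈ J := by
    intro s
    induction s using Finset.induction_on with
    | empty => exact hJ.fin _ 0 (fun n _ => by simp [chi])
    | insert a s _ ih =>
      refine hJ.union _ _ _ (fun n hn => ?_) ih (h1 a)
      simp only [chi_eq_true, mem_ofPred_eq, Finset.mem_insert] at hn ⊢
      tauto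
  have hd1 : Dense (Lam J (colFilter S0 h))ᶜ := by
    rw [dense_iff_inter_open]
    rintro U hU ⟨x, hx⟩
    obtain ⟨m, hm⟩ := exists_Oin hU hx
    refine ⟨cut x m, hm _ (fun n hn => by simp [cut, hn]), (hLam _).2 ?_⟩
    refine hJ.sub _ _ (fun n hn => ?_) (hfin (Finset.range m))
    simp only [chi_eq_true, mem_ofPred_eq, Finset.mem_range] at hn ⊢
    refine ⟨hn.1, ?_⟩
    by_contra h3
    simp [cut, h3] at hn
  have hd2 : Dense (flip ⁻¹' (Lam J (colFilter S0 h))ᶜ) := by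
    rw [dense_iff_inter_open]
    rintro U hU ⟨x, hx⟩
    obtain ⟨m, hm⟩ := exists_Oin hU hx
    refine ⟨fun n => if n < m then x n else true, hm _ (fun n hn => by simp [hn]), (hLam _).2 ?_⟩
    refine hJ.sub _ _ (fun n hn => ?_) (hfin (Finset.range m))
    simp only [chi_eq_true, mem_ofPred_eq, Finset.mem_range] at hn ⊢
    refine ⟨hn.1, ?_⟩
    by_contra h3
    simp [flip, h3] at hn
  obtain ⟨c, hc1, hc2⟩ := (Dense.inter_of_Gδ hK (hK.preimage hflip) hd1 hd2).nonempty
  have hc1' := (hLam _).1 hc1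
  have hc2' := (hLam _).1 hc2
  apply hS0
  refine hJ.union _ _ _ (fun n hn => ?_) hc1' hc2'
  simp only [chi_eq_true, mem_ofPred_eq, flip] at hn ⊢
  cases c (h n) <;> simp [hn]

end NoFin2


theorem pi4_repr {A : Set (ℕ → Bool)} (h : Pi0 4 A) :
    ∃ O : ℕ → ℕ → ℕ → Set (ℕ → Bool), (∀ i j l, IsOpen (O i j l)) ∧
      ∀ S, S ∈ A ↔ ∀ i, ∃ j, ∀ l, S ∈ O i j l := by
  obtain ⟨f, hf, hA⟩ := h
  choose g hg hfg using hf
  choose u hu hgu using hg
  refine ⟨fun i j l => (u i j l)ᶜ, fun i j l => hu i j l, fun S => ?_⟩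
  have h1 : S ∈ A ↔ ∀ i, S ∈ (f i)ᶜ := by
    rw [← compl_compl A, hA, compl_iUnion, mem_iInter]
  rw [h1]
  refine forall_congr' fun i => ?_
  rw [hfg, mem_iUnion]
  refine exists_congr fun j => ?_
  rw [← compl_compl (g i j), hgu, compl_iUnion, mem_iInter]

theorem chi_mem_code {I : Set (Set ℕ)} {S : Set ℕ} : chi S ∈ code I ↔ S ∈ I := by
  have : {n | chi S n = true} = S := by
    ext n
    simp
  show {n | chi S n = true} ∈ I ↔ S ∈ I
  rw [this]

theorem closed_code {I : Set (Set ℕ)} (hI : IsIdeal I) : ClosedFamily (code I) where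
  sub S T h hT := hI.subset _ _ h hT
  union S T U h hS hT := hI.subset _ _ (fun n hn => h n hn) (hI.union _ _ hS hT)
  fin S m h := hI.finite_mem _ ((Set.finite_lt_nat m).subset (fun n hn => by
    by_contra hcon
    have h1 : S n = true := hn
    rw [h n (not_lt.1 hcon)] at h1
    exact absurd h1 (by simp)))

theorem conv_iff {X : Type*} [TopologicalSpace X] (x : ℕ → X) (η : X) (S : ℕ → Bool) :
    Conv S (comap x (𝓝 η)) ↔ Tendsto x (atTop ⊓ 𝓟 {n | S n = true}) (𝓝 η) := by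
  rw [tendsto_iff_comap]
  constructor
  · intro h V hV
    rw [mem_inf_principal]
    obtain ⟨m, hm⟩ := h V hV
    exact mem_atTop_sets.2 ⟨m, hm⟩
  · intro h V hV
    have := h hV
    rw [mem_inf_principal] at this
    exact mem_atTop_sets.1 this

theorem lam_eq {X : Type*} [TopologicalSpace X] (I : Set (Set ℕ)) (x : ℕ → X) :
    Lam (code I) (fun η => comap x (𝓝 η)) = limitPoints I x := by
  ext η
  constructor
  · rintro ⟨S, hS, h⟩
    exact ⟨_, hS, (conv_iff x η S).1 h⟩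
  · rintro ⟨S, hS, h⟩
    refine ⟨chi S, fun h' => hS (chi_mem_code.1 h'), (conv_iff x η _).2 ?_⟩
    have : {n | chi S n = true} = S := by
      ext n
      simp
    rw [this]
    exact h

theorem limitPoints_sigma2 {X : Type*} [TopologicalSpace X] [SecondCountableTopology X]
    [RegularSpace X] {I : Set (Set ℕ)} (hI : IsIdeal I) (h4 : Pi0 4 (code I)) (x : ℕ → X) :
    Sigma0 2 (limitPoints I x) := by
  obtain ⟨O, hO, hJO⟩ := pi4_repr h4
  have hcov := lam_coverable (fun η => comap x (𝓝 η))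
    (fun i : TopologicalSpace.countableBasis X => x ⁻¹' i.1) (by
      rintro η V ⟨U, hU, hUV⟩
      obtain ⟨B, hB, hηB, hBU⟩ := (TopologicalSpace.isBasis_countableBasis X).mem_nhds_iff.1 hU
      refine ⟨⟨B, hB⟩, ⟨B, ?_, subset_rfl⟩, (preimage_mono hBU).trans hUV⟩
      exact ((TopologicalSpace.isBasis_countableBasis X).isOpen hB).mem_nhds hηB) (by
      intro V
      rw [isOpen_iff_mem_nhds]
      rintro η ⟨U, hU, hUV⟩
      filter_upwards [eventually_mem_nhds_iff.2 hU] with η' hη'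
      exact ⟨U, hη', hUV⟩) O hO (code I) (closed_code hI) hJO
  rw [lam_eq] at hcov
  obtain ⟨C, hC1, hC2, hC3⟩ := hcov
  have h5 : limitPoints I x = ⋃₀ C := subset_antisymm hC3 (sUnion_subset fun c hc => (hC2 c hc).2)
  have h6 : (insert ∅ C).Countable := hC1.insert _
  obtain ⟨f, hf⟩ := h6.exists_eq_range (insert_nonempty _ _)
  refine ⟨f, fun k => ?_, ?_⟩
  · have h7 : f k ∈ insert ∅ C := hf ▸ mem_range_self k
    rcases h7 with h7 | h7
    · rw [h7, compl_empty]
      exact isOpen_univ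
    · exact (hC2 _ h7).1.isOpen_compl
  · rw [h5, ← sUnion_range, ← hf, sUnion_insert, empty_union]


/-! ### Non-closed sets of limit points -/

theorem exists_partition {X : Type*} [MetricSpace X] {I : Set (Set ℕ)} (hI : IsIdeal I)
    (x : ℕ → X) (hx : ¬ IsClosed (limitPoints I x)) :
    ∃ h : ℕ → ℕ, (∀ k, {n | h n = k} ∉ I) ∧
      ∀ T : Set ℕ, (∀ k, {n | n ∈ T ∧ h n = k}.Finite) → T ∈ I := by
  classical
  obtain ⟨η, hη, hηΛ⟩ : ∃ η, η ∈ closure (limitPoints I x) ∧ η ∉ limitPoints I x := by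
    by_contra hcon
    push Not at hcon
    exact hx (isClosed_of_closure_subset hcon)
  have h1 : ∀ ε : ℝ, 0 < ε → ∃ y ∈ limitPoints I x, 0 < dist y η ∧ dist y η < ε := by
    intro ε hε
    obtain ⟨y, hy, hy'⟩ := Metric.mem_closure_iff.1 hη ε hε
    refine ⟨y, hy, dist_pos.2 (fun h => hηΛ (h ▸ hy)), ?_⟩
    rw [dist_comm]
    exact hy'
  have : Nonempty X := ⟨η⟩
  choose! f hf1 hf2 hf3 using h1
  let y : ℕ → X := fun k => Nat.rec (f 1) (fun _ z => f (dist z η / 2)) k
  have hy0 : ∀ k, y k ∈ limitPoints I x ∧ 0 < dist (y k) η := by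
    intro k
    induction k with
    | zero => exact ⟨hf1 1 one_pos, hf2 1 one_pos⟩
    | succ k ih => exact ⟨hf1 _ (half_pos ih.2), hf2 _ (half_pos ih.2)⟩
  let d : ℕ → ℝ := fun k => dist (y k) η
  have hd0 : ∀ k, 0 < d k := fun k => (hy0 k).2
  have hd1 : ∀ k, d (k + 1) < d k / 2 := fun k => hf3 _ (half_pos (hd0 k))
  have hd2 : ∀ j k, j ≤ k → d k ≤ d j := by
    intro j k hjk
    exact (antitone_nat_of_succ_le (fun k => (hd1 k).le.trans (by linarith [hd0 k]))) hjk
  have hd3 : ∀ k, d k ≤ d 0 * (1 / 2) ^ k := by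
    intro k
    induction k with
    | zero => simp
    | succ k ih =>
      calc d (k + 1) ≤ d k / 2 := (hd1 k).le
        _ ≤ d 0 * (1 / 2) ^ k / 2 := by linarith
        _ = d 0 * (1 / 2) ^ (k + 1) := by ring
  have hd4 : ∀ ε : ℝ, 0 < ε → ∃ k, d k < ε := by
    intro ε hε
    obtain ⟨k, hk⟩ := exists_pow_lt_of_lt_one (div_pos hε (hd0 0)) (by norm_num : (1 / 2 : ℝ) < 1)
    refine ⟨k, lt_of_le_of_lt (hd3 k) ?_⟩
    rw [lt_div_iff₀ (hd0 0)] at hk
    linarith
  let h : ℕ → ℕ := fun n => if hn : ∃ k, d k / 2 ≤ dist (x n) η then Nat.find hn else 0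
  refine ⟨h, fun k hk => ?_, fun T hT => ?_⟩
  · obtain ⟨S, hS, hconv⟩ := (hy0 k).1
    obtain ⟨e, he1, he2⟩ : ∃ e, d k < e ∧ ∀ j < k, e ≤ d j / 2 := by
      rcases k with _ | k
      · exact ⟨d 0 + 1, by linarith, fun j hj => absurd hj (by omega)⟩
      · refine ⟨d k / 2, hd1 k, fun j hj => ?_⟩
        have := hd2 j k (by omega)
        linarith
    have hU : {z : X | d k / 2 < dist z η ∧ dist z η < e} ∈ 𝓝 (y k) := by
      have hcont : Continuous (fun z : X => dist z η) := continuous_id.dist continuous_const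
      have h5 : IsOpen {z : X | d k / 2 < dist z η ∧ dist z η < e} :=
        (isOpen_lt continuous_const hcont).inter (isOpen_lt hcont continuous_const)
      exact h5.mem_nhds ⟨by show d k / 2 < d k; linarith [hd0 k], he1⟩
    have h6 := hconv hU
    rw [mem_map, mem_inf_principal, mem_atTop_sets] at h6
    obtain ⟨m, hm⟩ := h6
    apply hS
    refine hI.subset _ _ (fun n hn => ?_) (hI.union _ _ (hI.finite_mem _ (Set.finite_lt_nat m)) hk)
    by_cases hnm : n < m
    · exact Or.inl hnm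
    · right
      have h7 := hm n (not_lt.1 hnm) hn
      have hex : ∃ k, d k / 2 ≤ dist (x n) η := ⟨k, h7.1.le⟩
      show h n = k
      simp only [h, hex, dif_pos]
      rw [Nat.find_eq_iff]
      refine ⟨h7.1.le, fun j hj => ?_⟩
      rw [not_le]
      exact lt_of_lt_of_le h7.2 (he2 j hj)
  · by_contra hTI
    apply hηΛ
    refine ⟨T, hTI, ?_⟩
    rw [Metric.tendsto_nhds]
    intro ε hε
    obtain ⟨K, hK⟩ := hd4 ε hε
    have hfin : {n | n ∈ T ∧ h n ≤ K}.Finite := by
      have : {n | n ∈ T ∧ h n ≤ K} = ⋃ k ∈ Finset.range (K + 1), {n | n ∈ T ∧ h n = k} := by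
        ext n
        simp only [mem_ofPred_eq, mem_iUnion, Finset.mem_range]
        constructor
        · rintro ⟨h1, h2⟩
          exact ⟨h n, by omega, h1, rfl⟩
        · rintro ⟨k, h1, h2, h3⟩
          exact ⟨h2, by omega⟩
      rw [this]
      exact Set.Finite.biUnion (Finset.finite_toSet _) (fun k _ => hT k)
    obtain ⟨m, hm⟩ := hfin.bddAbove
    rw [eventually_inf_principal, eventually_atTop]
    refine ⟨m + 1, fun n hn hnT => ?_⟩
    have h8 : ¬ h n ≤ K := fun hle => by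
      have := hm ⟨hnT, hle⟩
      omega
    have h9 : ¬ (d K / 2 ≤ dist (x n) η) := by
      intro h10
      have hex : ∃ k, d k / 2 ≤ dist (x n) η := ⟨K, h10⟩
      apply h8
      simp only [h, hex, dif_pos]
      exact Nat.find_min' hex h10
    have := hd0 K
    linarith [not_le.1 h9]

/-! ### Realizing unions of closed sets -/

theorem realize {X : Type*} [TopologicalSpace X] [SecondCountableTopology X]
    {I : Set (Set ℕ)} (hI : IsIdeal I) (h4 : Pi0 4 (code I)) (h : ℕ → ℕ)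
    (K : Set ℕ) (hh : ∀ k ∈ K, {n | h n = k} ∉ I)
    (hsplit : ∀ S, S ∉ I → ∃ k ∈ K, {n | n ∈ S ∧ h n = k} ∉ I)
    (C : ℕ → Set X) (hC : ∀ k, IsClosed (C k)) (hC0 : ∀ k, (C k).Nonempty) :
    ∃ x : ℕ → X, ⋃ k ∈ K, C k = limitPoints I x := by
  classical
  obtain ⟨O, hO, hJO⟩ := pi4_repr h4
  have hblocks : ∀ k ∈ K, ∃ M : ℕ → ℕ, StrictMono M ∧ ∀ a : Set ℕ, a.Infinite →
      {n | n ∈ {n | h n = k} ∧ ∃ i ∈ a, M i ≤ n ∧ n < M (i + 1)} ∉ I := by
    intro k hk
    obtain ⟨M, hM, hM'⟩ := exists_blocks O hO (code I) (closed_code hI) hJO {n | h n = k}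
      (fun h' => hh k hk (chi_mem_code.1 h'))
    exact ⟨M, hM, fun a ha h' => hM' a ha (chi_mem_code.2 h')⟩
  choose! M hM hM' using hblocks
  have hdense : ∀ k, ∃ c : ℕ → X, (∀ i, c i ∈ C k) ∧ C k ⊆ closure (range c) := by
    intro k
    have : Nonempty (C k) := (hC0 k).to_subtype
    refine ⟨fun i => (TopologicalSpace.denseSeq (C k) i : X), fun i => Subtype.coe_prop _, ?_⟩
    intro η hη
    have h1 := TopologicalSpace.denseRange_denseSeq (C k) ⟨η, hη⟩
    have h3 := image_closure_subset_closure_image (continuous_subtype_val (p := fun z => z ∈ C k))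
      (mem_image_of_mem _ h1)
    rw [← range_comp] at h3
    exact h3
  choose c hc1 hc2 using hdense
  let idx : ℕ → ℕ → ℕ := fun k n => Nat.findGreatest (fun i => M k i ≤ n) n
  have hidx : ∀ k ∈ K, ∀ i n, M k i ≤ n → n < M k (i + 1) → idx k n = i := by
    intro k hk i n h1 h2
    rw [Nat.findGreatest_eq_iff]
    refine ⟨((hM k hk).le_apply (x := i)).trans h1, fun _ => h1, fun j hj _ h3 => ?_⟩
    have h4 : M k (i + 1) ≤ M k j := (hM k hk).monotone hj
    omega
  let x : ℕ → X := fun n => c (h n) (Nat.unpair (idx (h n) n)).1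
  refine ⟨x, subset_antisymm ?_ ?_⟩
  · intro η hη
    simp only [mem_iUnion] at hη
    obtain ⟨k, hk, hη⟩ := hη
    obtain ⟨u, hu1, hu2⟩ := mem_closure_iff_seq_limit.1 (hc2 k hη)
    choose j hj using hu1
    have hinf : (range (fun m => Nat.pair (j m) m)).Infinite :=
      Set.infinite_range_of_injective (fun m m' hmm => (Nat.pair_eq_pair.1 hmm).2)
    refine ⟨_, hM' k hk _ hinf, ?_⟩
    intro U hU
    obtain ⟨m0, hm0⟩ := mem_atTop_sets.1 (hu2 hU)
    rw [mem_map, mem_inf_principal, mem_atTop_sets]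
    refine ⟨(Finset.range m0).sup (fun m => M k (Nat.pair (j m) m + 1)), ?_⟩
    rintro n hn ⟨hnk, i, ⟨m, rfl⟩, hi1, hi2⟩
    have hnk' : h n = k := hnk
    have hm : m0 ≤ m := by
      by_contra hcon
      have := Finset.le_sup (f := fun m => M k (Nat.pair (j m) m + 1))
        (Finset.mem_range.2 (not_le.1 hcon))
      exact absurd (lt_of_lt_of_le hi2 (this.trans hn)) (lt_irrefl _)
    show c (h n) (Nat.unpair (idx (h n) n)).1 ∈ U
    rw [hnk', hidx k hk _ n hi1 hi2]
    simp only [Nat.unpair_pair]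
    rw [hj m]
    exact hm0 m hm
  · rintro η ⟨S, hS, hconv⟩
    obtain ⟨k, hk, hSk⟩ := hsplit S hS
    simp only [mem_iUnion]
    refine ⟨k, hk, ?_⟩
    have hinf : {n | n ∈ S ∧ h n = k}.Infinite := fun hfin => hSk (hI.finite_mem _ hfin)
    have hne : (atTop ⊓ 𝓟 {n | n ∈ S ∧ h n = k}).NeBot := by
      rw [inf_principal_neBot_iff]
      intro U hU
      obtain ⟨m, hm⟩ := mem_atTop_sets.1 hU
      obtain ⟨n, hn, hmn⟩ := hinf.exists_gt m
      exact ⟨n, hm n hmn.le, hn⟩
    have hconv' : Tendsto x (atTop ⊓ 𝓟 {n | n ∈ S ∧ h n = k}) (𝓝 η) :=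
      hconv.mono_left (inf_le_inf_left _ (principal_mono.2 (fun n hn => hn.1)))
    refine (hC k).mem_of_tendsto hconv' ?_
    rw [eventually_inf_principal]
    refine Eventually.of_forall (fun n hn => ?_)
    show c (h n) _ ∈ C k
    rw [hn.2]
    exact hc1 k _

/-- For every Polish space `X` and every `Π⁰₄` ideal `I` on `ω`, the family `L_X(I)` is either the
family of all closed subsets of `X` or the family of all `F_σ` subsets of `X`. -/
theorem result (X : Type*) [TopologicalSpace X] [PolishSpace X] (I : Set (Set ℕ))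
    (hI : IsIdeal I) (h4 : Pi0 4 (code I)) :
    limitFamily X I = {A | Pi0 1 A} ∨ limitFamily X I = {A | Sigma0 2 A} := by
  classical
  let _ := TopologicalSpace.metrizableSpaceMetric X
  by_cases hcl : ∀ x : ℕ → X, IsClosed (limitPoints I x)
  · left
    ext A
    constructor
    · rintro (⟨x, rfl⟩ | hA)
      · exact (hcl x).isOpen_compl
      · rw [mem_singleton_iff.1 hA]
        show IsOpen (∅ : Set X)ᶜ
        rw [compl_empty]
        exact isOpen_univ
    · intro hA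
      have hA' : IsClosed A := ⟨hA⟩
      rcases A.eq_empty_or_nonempty with hA0 | hA0
      · exact Or.inr hA0
      · left
        obtain ⟨x, hx⟩ := realize hI h4 (fun _ => 0) {0} (fun k hk => by
            rw [mem_singleton_iff.1 hk]
            simpa using hI.proper) (fun S hS => ⟨0, rfl, by simpa using hS⟩) (fun _ => A)
          (fun _ => hA') (fun _ => hA0)
        exact ⟨x, by simpa using hx⟩
  · right
    push Not at hcl
    obtain ⟨x0, hx0⟩ := hcl
    obtain ⟨h, hh1, hh2⟩ := exists_partition hI x0 hx0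
    obtain ⟨O, hO, hJO⟩ := pi4_repr h4
    ext A
    constructor
    · rintro (⟨x, rfl⟩ | hA)
      · exact limitPoints_sigma2 hI h4 x
      · rw [mem_singleton_iff.1 hA]
        exact ⟨fun _ => ∅, fun _ => by rw [compl_empty]; exact isOpen_univ, by simp⟩
    · rintro ⟨f, hf, hA⟩
      rcases A.eq_empty_or_nonempty with hA0 | hA0
      · exact Or.inr hA0
      · left
        have hf' : ∀ k, IsClosed (f k) := fun k => ⟨hf k⟩
        obtain ⟨z, hz⟩ := hA0
        rw [hA, mem_iUnion] at hz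
        obtain ⟨k0, hk0⟩ := hz
        obtain ⟨x, hx⟩ := realize hI h4 h univ (fun k _ => hh1 k) (fun S hS => by
            by_contra hcon
            push Not at hcon
            refine no_fin2 O hO (code I) (closed_code hI) hJO S h
              (fun h' => hS (chi_mem_code.1 h')) (fun k => chi_mem_code.2 (hcon k trivial))
              (fun T _ hT => chi_mem_code.2 (hh2 T hT)))
          (fun k => if (f k).Nonempty then f k else f k0)
          (fun k => by by_cases h1 : (f k).Nonempty <;> simp [h1, hf'])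
          (fun k => by
            by_cases h1 : (f k).Nonempty
            · simp [h1]
            · simp only [h1, if_false]
              exact ⟨z, hk0⟩)
        refine ⟨x, ?_⟩
        rw [← hx, hA]
        ext y
        simp only [mem_iUnion, mem_univ, exists_true_left]
        constructor
        · rintro ⟨k, hk⟩
          refine ⟨k, ?_⟩
          have : (f k).Nonempty := ⟨y, hk⟩
          simp [this, hk]
        · rintro ⟨k, hk⟩
          by_cases h1 : (f k).Nonempty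
          · simp only [h1, if_true] at hk
            exact ⟨k, hk⟩
          · simp only [h1, if_false] at hk
            exact ⟨k0, hk⟩

end Pool.Agent.Results.MP_c9b87f_lc.PiFourIdeals
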